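import Pool.Agent.H72.EN.Targets

/-!
# Row RMN: the running minimum
-/

set_option autoImplicit false

open Finset Pool.Agent.H6.N4D Pool.Agent.H93.EB Pool.Agent.H28.EN Pool.Agent.H72.EN

namespace Pool.Agent.H25.ENL

/-- The running minimum of a sequence. -/
noncomputable def runMin (t : ℕ → ℝ) : ℕ → ℝ
  | 0 => t 0
  | k + 1 => min (runMin t k) (t (k + 1))

theorem pf_RMN : T_RMN := by
  intro t M δ h
  have hT0 : ∀ k, ∃ j ≤ k, runMin t k = t j := by
    intro k
    induction k with
    | zero => exact ⟨0, le_refl 0, rfl⟩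
    | succ k ih =>
      obtain ⟨j, hj, e⟩ := ih
      rcases min_choice (runMin t k) (t (k + 1)) with h1 | h1
      · exact ⟨j, by omega, by show min (runMin t k) (t (k + 1)) = t j; rw [h1, e]⟩
      · exact ⟨k + 1, le_refl _, h1⟩
  refine ⟨runMin t, antitone_nat_of_succ_le fun k => min_le_left _ _, ?_, hT0⟩
  intro k hk
  constructor
  · cases k with
    | zero => exact le_refl _
    | succ k => exact min_le_right _ _
  · obtain ⟨j, hj, e⟩ := hT0 k
    rw [e]
    exact h j k hj hk

end Pool.Agent.H25.ENL
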