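import Pool.Agent.H72.EN.Targets

/-!
# Row WT1: a lower bound for a weight
-/

set_option autoImplicit false

open Finset Pool.Agent.H6.N4D Pool.Agent.H93.EB Pool.Agent.H28.EN Pool.Agent.H72.EN

namespace Pool.Agent.H25.ENL

theorem pf_WT1 : T_WT1 := by
  intro m₀ me j h1 h2 h3
  have hsub : Ioc j (j + j / 500) ⊆
      (Icc m₀ me).filter (fun m => m - m / 500 ≤ j ∧ j < m) := by
    intro m hm
    rw [mem_Ioc] at hm
    rw [mem_filter, mem_Icc]
    have e1 : j / 500 ≤ me / 500 := Nat.div_le_div_right (by omega)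
    have e2 : j / 500 ≤ m / 500 := Nat.div_le_div_right (by omega)
    omega
  have hpos : ∀ m : ℕ, (0 : ℝ) ≤ 1 / (m : ℝ) := fun m => by positivity
  have hj : (3500 : ℝ) ≤ j := by exact_mod_cast h1.trans h2
  have hc1 : ((j / 500 : ℕ) : ℝ) ≤ (j : ℝ) / 500 := by
    have := @Nat.cast_div_le ℝ _ _ _ j 500
    exact_mod_cast this
  have hc2 : ((j : ℝ) - 499) / 500 ≤ ((j / 500 : ℕ) : ℝ) := by
    have e : j ≤ 500 * (j / 500) + 499 := by omega
    have e' : (j : ℝ) ≤ 500 * ((j / 500 : ℕ) : ℝ) + 499 := by exact_mod_cast e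
    linarith
  have hlow : ∀ m ∈ Ioc j (j + j / 500), 500 / (501 * (j : ℝ)) ≤ 1 / (m : ℝ) := by
    intro m hm
    rw [mem_Ioc] at hm
    have hm0 : (0 : ℝ) < m := by
      have : 0 < m := by omega
      exact_mod_cast this
    have hm1 : (m : ℝ) ≤ (j : ℝ) + (j : ℝ) / 500 := by
      have : (m : ℝ) ≤ (j : ℝ) + ((j / 500 : ℕ) : ℝ) := by exact_mod_cast hm.2
      linarith
    rw [div_le_div_iff₀ (by positivity) hm0]
    linarith
  calc (1 : ℝ) / 600 ≤ (((j : ℝ) - 499) / 500) * (500 / (501 * (j : ℝ))) := by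
        rw [div_mul_div_comm, div_le_div_iff₀ (by norm_num) (by positivity)]
        nlinarith
    _ ≤ ((j / 500 : ℕ) : ℝ) * (500 / (501 * (j : ℝ))) :=
        mul_le_mul_of_nonneg_right hc2 (by positivity)
    _ = ∑ _m ∈ Ioc j (j + j / 500), 500 / (501 * (j : ℝ)) := by
        rw [sum_const, Nat.card_Ioc, nsmul_eq_mul, Nat.add_sub_cancel_left]
    _ ≤ ∑ m ∈ Ioc j (j + j / 500), 1 / (m : ℝ) := sum_le_sum hlow
    _ ≤ _ := sum_le_sum_of_subset_of_nonneg hsub fun m _ _ => hpos m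

end Pool.Agent.H25.ENL
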